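import Pool.Agent.E8helper30.RG.Stm2

set_option autoImplicit false

open scoped Classical

namespace Pool.Agent.E8helper63.RG

open Pool.Agent.E8helper30.RG

theorem t_BUILD : S_BUILD := by
  intro n t p hd hinj
  let E : Set (Sym2 (Fin n)) := {e | ∃ j < t, ∃ b, e = p j b}
  let G : SimpleGraph (Fin n) := SimpleGraph.fromEdgeSet E
  have hG : G.edgeSet = E := by
    show (SimpleGraph.fromEdgeSet E).edgeSet = E
    rw [SimpleGraph.edgeSet_fromEdgeSet]
    ext e
    constructor
    · exact fun h => h.1
    · intro h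
      refine ⟨h, ?_⟩
      obtain ⟨j, hj, b, rfl⟩ := h
      exact hd j hj b
  let c : Sym2 (Fin n) → ℕ := fun e => if h : ∃ j, j < t ∧ ∃ b, e = p j b then h.choose else 0
  have hc : ∀ j < t, ∀ b, c (p j b) = j := by
    intro j hj b
    have h : ∃ j', j' < t ∧ ∃ b', p j b = p j' b' := ⟨j, hj, b, rfl⟩
    have h1 : c (p j b) = h.choose := dif_pos h
    rw [h1]
    obtain ⟨h2, b', h3⟩ := h.choose_spec
    exact (hinj j hj _ h2 b b' h3).1.symm
  refine ⟨G, c, ?_, ?_, ?_, hc⟩
  · -- the number of the edges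
    rw [hG]
    have hE : E = ((Finset.range t ×ˢ (Finset.univ : Finset Bool)).image (fun q => p q.1 q.2) :
        Finset (Sym2 (Fin n))) := by
      ext e
      simp only [Finset.coe_image, Set.mem_image, Finset.mem_coe, Finset.mem_product, Finset.mem_range,
        Finset.mem_univ, and_true, Prod.exists]
      constructor
      · rintro ⟨j, hj, b, rfl⟩
        exact ⟨j, b, hj, rfl⟩
      · rintro ⟨j, b, hj, rfl⟩
        exact ⟨j, hj, b, rfl⟩
    rw [hE, Set.ncard_coe_finset, Finset.card_image_of_injOn, Finset.card_product, Finset.card_range,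
      Finset.card_univ, Fintype.card_bool, mul_comm]
    rintro ⟨j, b⟩ h1 ⟨j', b'⟩ h2 h3
    simp only [Finset.mem_coe, Finset.mem_product, Finset.mem_range, Finset.mem_univ, and_true] at h1 h2
    obtain ⟨h4, h5⟩ := hinj j h1 j' h2 b b' h3
    rw [h4, h5]
  · intro e he
    rw [hG] at he
    obtain ⟨j, hj, b, rfl⟩ := he
    have hset : {e' : Sym2 (Fin n) | e' ∈ G.edgeSet ∧ c e' = c (p j b)} = {p j false, p j true} := by
      ext e'
      rw [Set.mem_setOf_eq, hG, hc j hj b]
      constructor
      · rintro ⟨⟨j', hj', b', rfl⟩, h⟩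
        rw [hc j' hj' b'] at h
        subst h
        cases b'
        · exact Or.inl rfl
        · exact Or.inr rfl
      · rintro (rfl | rfl)
        · exact ⟨⟨j, hj, false, rfl⟩, hc j hj false⟩
        · exact ⟨⟨j, hj, true, rfl⟩, hc j hj true⟩
    rw [hset]
    apply Set.ncard_pair
    intro h
    have := (hinj j hj j hj false true h).2
    exact absurd this (by decide)
  · intro e he
    rw [hG] at he
    obtain ⟨j, hj, b, rfl⟩ := he
    exact ⟨j, hj, b, rfl, hc j hj b⟩

end Pool.Agent.E8helper63.RG
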